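import Pool.Agent.H71.CDX.Crx
import Pool.Agent.H92.V0F.Vsd
import Pool.Agent.H3.V0F.Attg

/-!
# Labels of a universal degree near almost every window

`LbNQ`: the class is maximal for labels (`LbN` of `H71`); `her_lbn`, `aePG_lbn`: it holds at almost
every window, in a subclass. `recG_lbw`: labels of a universal degree at the windows of the chain of a
record, in a subclass, with a margin. `recG_lbr`: in a class with `LbNQ`, the labels `LbR` near each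
window of `G` in a box around `g`, if the chain of the record contains a net.
-/

set_option autoImplicit false

namespace Pool.LBR50

open Finset Real MvPolynomial MeasureTheory Filter
open Pool.Agent.H49.Ent Pool.Agent.H32.Dense Pool.STK Pool.KA Pool.KSAT Pool.K2S Pool.PB Pool.GEN
open Pool.S6C Pool.RCD Pool.LA91 Pool.OWN68 Pool.PKG Pool.V0F Pool.CDX
open Pool.ISO (lvN)
open Pool.TOP (TopS)

/-- **The class is maximal for labels** at the windows of `G`. -/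
def LbNQ {n : ℕ} (_ : Unit) (_ : ℕ) (S : PCl n) (_ : List (Fin n) × Fin n → ℝ → ℝ → ℝ) (_ : ℝ)
    (c : ℕ → Fin n) (_ : ℝ → ℝ → ℝ) (_ : ℝ → ℝ) (L _ : ℕ → ℝ → ℝ → ℝ) (_ : ℕ → Kg)
    (G : Set ℝ) (_ : ℝ) : Prop :=
  LbN S c 0 (fun w l => L l w w) G (n - 1)

theorem her_lbn (n : ℕ) : HerQ (LbNQ : PropG n Unit) := by
  intro p k₀ S S' P θ c Pt r L T κ G x hs h
  exact LbN.sub h ⟨1, one_pos, fun τ _ _ J F A hA => hs τ J F A hA⟩

/-- **It holds at almost every window.** -/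
theorem aePG_lbn (n : ℕ) : AePG n (LbNQ : PropG n Unit) := by
  intro hn S P r P' Λ PB PQ H hTop hF o G hG hGs
  obtain ⟨S', h1, h2, h3⟩ := lbn_ex H.toPk.ne (cc hn o.1.1) 0
    (fun w l => LvL hn P P' o l w w) G (n - 1)
  exact ⟨S', h1, h2, Filter.Eventually.of_forall fun g _ κ _ _ => ⟨0, h3⟩⟩

/-- **Labels of a universal degree at the chain windows of a record**, in a subclass, with a margin
for the radii as well. -/
theorem recG_lbw (n S₀ : ℕ) (hn : 2 ≤ n) (hS₀ : 1 ≤ S₀) : ∃ D : ℕ, 1 ≤ D ∧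
    ∀ {S : PCl n} {al : ℝ} {g₀ : ℝ → ℝ} {P : List (Fin n) × Fin n → ℝ → ℝ → ℝ}
    {θ : ℝ} {P₂ : ℕ → List (Fin n) × Fin n → ℝ → ℝ → ℝ} {θ₂ Eb e₂ : ℕ → ℝ}
    {c : ℕ → Fin n} {Pt : ℝ → ℝ → ℝ} {r : ℝ → ℝ} {h K₀ g : ℝ} {L T : ℕ → ℝ → ℝ → ℝ}
    {Sl : ℕ → ℝ} {κ : ℕ → Kg} {G : Set ℝ} {N : ℕ} {A V : ℕ → ℝ} {S₂ N' : ℕ} {V' : ℕ → ℝ}
    {K ε q t m₁ : ℝ},
    RecG S al g₀ P θ P₂ θ₂ Eb e₂ c Pt r h K₀ g L T Sl κ G S₀ N A V S₂ N' V' K ε q t →
    0 < K → (∀ k < N', |V' k| ≤ K) → 0 ≤ m₁ → m₁ ≤ 3 * K * q →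
    (∀ k < N', ∃ rd : ℕ → ℝ, Chn S c 0 (n - 1) (t + V' k * q) (t + V' k * q)
      (L (n - 2) (t + V' k * q) (t + V' k * q)) (fun l => L l (t + V' k * q) (t + V' k * q)) rd) →
    (∀ k < N', ∃ rk E : ℝ, 0 ≤ E ∧ E + L (n - 1) (t + V' k * q) (t + V' k * q) + m₁ ≤ 1 ∧
      AttR S ((range (n - 1)).image c) (c (n - 1)) (t + V' k * q)
        (L (n - 1) (t + V' k * q) (t + V' k * q)) rk E) →
    ∃ S' : PCl n,
      (∀ (τ : ℝ) (J : ℕ) (F : Fam n J) (A : F.Ω → Prop), S'.St τ J F A → S.St τ J F A) ∧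
      RecG S' al g₀ P θ P₂ θ₂ Eb e₂ c Pt r h K₀ g L T Sl κ G S₀ N A V S₂ N' V' K ε q t ∧
      ∀ k < N', LabW S' c 0 D (fun w l => L l w w) m₁ (t + V' k * q) (n - 1) := by
  obtain ⟨D, hD, hext⟩ := lbc_ext n (n - 1) S₀ (by omega) hS₀
  refine ⟨D, hD, ?_⟩
  intro S al g₀ P θ P₂ θ₂ Eb e₂ c Pt r h K₀ g L T Sl κ G N A V S₂ N' V' K ε q t m₁ R hK hV hm0 hm₁
    hch hatt
  have hn1 : n - 1 + 1 = n := by omega
  have hq := R.q0
  choose! rd hch using hch
  choose! rk E hE0 hE1 hatt using hatt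
  have hlv : ∀ k < N', ∀ i ≤ n - 1, 0 < lvN P c (n - 1) Pt i (t + V' k * q) (t + V' k * q) := by
    intro k hk i hi
    obtain ⟨ρ, vs, e, e₀, E, sg, Q, k1, -⟩ := (balD_rec R hn hK hk (hV k hk)).dw
    exact k1.w0.trans_le (k1.low R.thr i)
  have hlvL : ∀ k : ℕ, ∀ i ≤ n - 1, lvN P c (n - 1) Pt i (t + V' k * q) (t + V' k * q) =
      L i (t + V' k * q) (t + V' k * q) := fun k i hi => by rw [R.lv i (by omega)]
  have hroom : ∀ k < N', ∀ i ≤ n - 1, L i (t + V' k * q) (t + V' k * q) + m₁ ≤ 1 := by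
    intro k hk i hi
    have W := R.tg (n - 1) (by omega) (by omega)
    have h3 := W.room i hi (t + V' k * q) (by
      rw [add_sub_cancel_left, abs_mul, abs_of_pos hq]
      exact mul_le_mul_of_nonneg_right (hV k hk) hq.le)
    have := W.Eb0
    linarith
  obtain ⟨u, hu⟩ : ∃ u : ℕ → ℝ, u = fun k => L (n - 2) (t + V' k * q) (t + V' k * q) := ⟨_, rfl⟩
  have hue : ∀ k, L (n - 2) (t + V' k * q) (t + V' k * q) = u k := fun k => by rw [hu]
  obtain ⟨E', hE'⟩ : ∃ E' : ℕ → ℝ, E' = fun k =>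
      max (E k) (u k - L (n - 1) (t + V' k * q) (t + V' k * q)) := ⟨_, rfl⟩
  obtain ⟨S', hne, hsub, hlab⟩ := hext (ι := {k : ℕ // k < N'}) (w := fun k => t + V' k.1 * q)
    (u := fun k _ => u k.1)
    (E := fun k i => if i < n - 1 then max 0 (u k.1 - L i (t + V' k.1 * q) (t + V' k.1 * q))
      else E' k.1) R.ne R.thr R.th0 R.tmh
    (by norm_num : (0 : ℝ) ≤ 6) R.tmc (by rw [hn1]; exact R.inj) R.law (fun k => by
      have h1 := hch k.1 k.2
      rw [hue] at h1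
      refine LbD.of2 (balD_rec R hn hK k.2 (hV k.1 k.2)) h1 (fun i hi => (hlvL k.1 i hi.le).symm)
        (rk := rk k.1) ?_ ?_ ?_ (hlv k.1 k.2)
      · rw [hlvL k.1 _ le_rfl]
        refine (hatt k.1 k.2).mono ?_
        rw [hE']
        exact le_max_left _ _
      · rw [hE']
        exact (hE0 k.1 k.2).trans (le_max_left _ _)
      · rw [hlvL k.1 _ le_rfl, hE']
        have := le_max_right (E k.1) (u k.1 - L (n - 1) (t + V' k.1 * q) (t + V' k.1 * q))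
        linarith)
  have hu0 : ∀ k < N', 0 ≤ u k := fun k hk => by
    rw [← hue]
    exact (hch k hk).w0.trans (hch k hk).wu1
  have hu1 : ∀ k < N', u k + m₁ ≤ 1 := fun k hk => by
    rw [← hue]
    exact hroom k hk _ (by omega)
  refine ⟨S', hsub, R.sub hne hsub, fun k hk => ⟨fun i => if i < n - 1 then
    max 0 (u k - L i (t + V' k * q) (t + V' k * q)) else E' k, fun _ => u k,
    fun l _ hl => ?_, fun e he => ?_⟩⟩
  · have hL0 : 0 < L l (t + V' k * q) (t + V' k * q) := by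
      rw [← hlvL k l hl]
      exact hlv k hk l hl
    have h0 : 0 ≤ (if l < n - 1 then max 0 (u k - L l (t + V' k * q) (t + V' k * q))
        else E' k) := by
      by_cases h1 : l < n - 1
      · simp only [if_pos h1]
        exact le_max_left _ _
      · simp only [if_neg h1]
        rw [hE']
        exact (hE0 k hk).trans (le_max_left _ _)
    have h2 : L l (t + V' k * q) (t + V' k * q) +
        (if l < n - 1 then max 0 (u k - L l (t + V' k * q) (t + V' k * q)) else E' k) + m₁ ≤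
          1 := by
      by_cases h1 : l < n - 1
      · simp only [if_pos h1]
        have h2 := hroom k hk l hl
        have h4 := hu1 k hk
        rcases max_choice 0 (u k - L l (t + V' k * q) (t + V' k * q)) with h3 | h3
        · rw [h3]
          linarith
        · rw [h3]
          linarith
      · have h2 : l = n - 1 := by omega
        subst h2
        have h4 := hu1 k hk
        simp only [lt_irrefl, if_false]
        rw [hE']
        simp only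
        rcases max_choice (E k) (u k - L (n - 1) (t + V' k * q) (t + V' k * q)) with h3 | h3
        · rw [h3]
          linarith [hE1 k hk]
        · rw [h3]
          linarith
    exact ⟨h0, by linarith, hu0 k hk, hu1 k hk, hL0.le, h2⟩
  · refine (hlab ⟨k, hk⟩ e he).mono 0 ?_
    rintro J - F A' ⟨V₁, z, z', g', h1⟩
    refine ⟨V₁, z, z', g', fun i _ hi => ?_⟩
    have h2 := h1 i hi
    simp only [← R.lv i (by omega : i < n)] at h2
    exact h2

/-- **Labels in the box** around `g`, in a class with `LbNQ`, if the chain of the record contains a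
net: the degree `D` depends only on `n` and `S₀`. -/
theorem recG_lbr (n S₀ : ℕ) (hn : 2 ≤ n) (hS₀ : 1 ≤ S₀) : ∃ D : ℕ, 1 ≤ D ∧
    ∀ {S : PCl n} {al : ℝ} {g₀ : ℝ → ℝ} {P : List (Fin n) × Fin n → ℝ → ℝ → ℝ}
    {θ : ℝ} {P₂ : ℕ → List (Fin n) × Fin n → ℝ → ℝ → ℝ} {θ₂ Eb e₂ : ℕ → ℝ}
    {c : ℕ → Fin n} {Pt : ℝ → ℝ → ℝ} {r : ℝ → ℝ} {h K₀ g : ℝ} {L T : ℕ → ℝ → ℝ → ℝ}
    {Sl : ℕ → ℝ} {κ : ℕ → Kg} {G : Set ℝ} {N : ℕ} {A V : ℕ → ℝ} {S₂ N' : ℕ} {V' : ℕ → ℝ}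
    {K ε q t : ℝ} {k₁ k₂ : ℕ},
    RecG S al g₀ P θ P₂ θ₂ Eb e₂ c Pt r h K₀ g L T Sl κ G S₀ N A V S₂ N' V' K ε q t →
    0 < K → (∀ k < N', |V' k| ≤ K) → LbNQ () k₁ S P θ c Pt r L T κ G g →
    ChUQ () k₁ S P θ c Pt r L T κ G g → AttUQ () k₂ S P θ c Pt r L T κ G g →
    (K + K₀) * q ≤ (1 / 2) ^ k₂ →
    ∀ W ε₁ m₁ : ℝ, 0 < m₁ → m₁ < 3 * K * q → m₁ < (1 / 2) ^ k₂ →
    (∀ u : ℝ, -W ≤ u → u ≤ W → ∃ k < N', u - ε₁ < V' k ∧ V' k < u) →
    ∀ W' : ℝ, W' + K₀ * q ≤ W * q →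
    LbR S c 1 D (fun w l => L l w w) G g m₁ W' (ε₁ * q) (n - 1) := by
  obtain ⟨D, hD, H⟩ := recG_lbw n S₀ hn hS₀
  refine ⟨D, hD, ?_⟩
  intro S al g₀ P θ P₂ θ₂ Eb e₂ c Pt r h K₀ g L T Sl κ G N A V S₂ N' V' K ε q t k₁ k₂ R hK hV hN
    hC hA hk₂ W ε₁ m₁ hm0 hm1 hm2 hnet W' hW'
  have hq := R.q0
  obtain ⟨g₁, hg₁, hg₂⟩ := exists_rat_btwn (lt_min hm1 hm2)
  have hg3 := hg₂.trans_le (min_le_left _ _)
  have hg4 := hg₂.trans_le (min_le_right _ _)
  obtain ⟨S', hs, R', hL⟩ := H (m₁ := (g₁ : ℝ)) R hK hV (by linarith) hg3.le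
    (fun k hk => by
      obtain ⟨rd, -, h1⟩ := hC _ (R.memG.2 k hk)
      exact ⟨rd, h1⟩)
    (fun k hk => by
      have hx : |t + V' k * q - g| ≤ (1 / 2) ^ k₂ := by
        have h1 := abs_le.1 R.near
        have h2 : |V' k * q| ≤ K * q := by
          rw [abs_mul, abs_of_pos hq]
          exact mul_le_mul_of_nonneg_right (hV k hk) hq.le
        have h3 := abs_le.1 h2
        have h4 : (K + K₀) * q = K * q + K₀ * q := by ring
        rw [abs_le]
        constructor <;> linarith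
      obtain ⟨rk, E, -, -, h3, h4, h5⟩ := hA _ (R.memG.2 k hk) hx
      exact ⟨rk, E, h3, by linarith, h5⟩)
  have hle : S'.Le S := ⟨1, one_pos, fun τ _ _ J F A hA => hs τ J F A hA⟩
  have h1 : LbR S' c 0 D (fun w l => L l w w) G t (g₁ : ℝ) (W * q) (ε₁ * q) (n - 1) :=
    lbr_win hq hnet R.memG.2 hL
  have h2 := LbR.up hN R'.ne hle h1
  intro w hw w1 w2
  have h3 := abs_le.1 R.near
  obtain ⟨b, hb, b1, b2, hb'⟩ := h2 w hw (by linarith) (by linarith)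
  exact ⟨b, hb, b1, b2, hb'.mono (Nat.zero_le 1) le_rfl hg₁.le⟩

end Pool.LBR50
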